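import Pool.Agent.helper32.NN.Spec

set_option autoImplicit false

open Submodule

noncomputable section

namespace Pool.Agent.NN

universe u v

theorem PER : PER_stmt.{u, v} := by
  intro K U _ _ _ A hA
  by_contra hne
  obtain ⟨n, hn⟩ := hA.prop (A * A) hA.mul (mul_le_mul' hA.mul hA.mul) hne
  apply hA.notn (2 * n)
  rw [pow_mul, pow_two]
  exact hn

end Pool.Agent.NN
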